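import Mathlib
import Pool.Agent.H55.HarborthDefs
import Pool.Agent.H55.Harborth

namespace Pool.Agent.Results.MP_82795f_nt.Q1Infinite

open Pool.Agent.H55.HarborthDefs

/-- Q1: there are infinitely many `c ≥ 2` with `S ⊆ K_c`. -/
theorem result : Set.Infinite {c : ℕ | 2 ≤ c ∧ S ⊆ K c} :=
  Pool.Agent.H55.Harborth.infinite

end Pool.Agent.Results.MP_82795f_nt.Q1Infinite
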