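import Mathlib
import Pool.Agent.H55.HarborthDefs
import Pool.Agent.H55.Harborth

namespace Pool.Agent.Results.MP_82795f_nt.Q2False

open Pool.Agent.H55.HarborthDefs

/-- Q2 fails: `2 * 257 ∉ K_12`. -/
theorem result : ¬ ∀ c : ℕ, 0 < c → 3 ∣ c → S ⊆ K c := fun h =>
  Pool.Agent.H55.Harborth.counter.2
    (h 12 (by norm_num) (by norm_num) Pool.Agent.H55.Harborth.counter.1)

end Pool.Agent.Results.MP_82795f_nt.Q2False
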